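import Pool.Agent.Run7.h423.Defs

/-!
# G10: Wronskians over `ℚ⟦X⟧[L]`
-/

set_option autoImplicit false

namespace Run7.h423

noncomputable section

open PowerSeries

theorem exists_unit_part {g : ℚ⟦X⟧} (hg : g ≠ 0) :
    ∃ (μ : ℕ) (u v : ℚ⟦X⟧), g = X ^ μ * u ∧ u * v = 1 := by
  obtain ⟨u, hu⟩ := PowerSeries.X_pow_order_dvd (φ := g)
  have hu0 : constantCoeff u ≠ 0 := by
    intro h0
    apply PowerSeries.coeff_order hg
    rw [hu]
    have : (coeff g.order.toNat) (X ^ g.order.toNat * u) = 0 := by
      rw [PowerSeries.coeff_X_pow_mul', if_pos le_rfl, Nat.sub_self]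
      simpa using h0
    rw [← hu] at this ⊢
    exact this
  exact ⟨g.order.toNat, u, u⁻¹, hu, PowerSeries.mul_inv_cancel u hu0⟩

theorem D_X_pow (μ : ℕ) : D ((X : ℚ⟦X⟧) ^ μ) = C (μ : ℚ) * X ^ μ := by
  ext n
  rw [coeff_D, PowerSeries.coeff_C_mul, PowerSeries.coeff_X_pow]
  split_ifs with h
  · rw [h]
  · simp

theorem quot_eq {f g u v : ℚ⟦X⟧} {μ : ℕ} (hg : g = X ^ μ * u) (huv : u * v = 1) {c : ℚ}
    (h : D f * g - f * D g = C c * g ^ 2) :
    D (f * v) - C (μ : ℚ) * (f * v) = C c * X ^ μ := by
  have hX : (X : ℚ⟦X⟧) ^ μ ≠ 0 := pow_ne_zero _ PowerSeries.X_ne_zero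
  have hDv : D v = - (D u * v ^ 2) := by
    have h1 := congrArg D huv
    rw [Derivation.leibniz, Derivation.map_one_eq_zero, smul_eq_mul, smul_eq_mul] at h1
    have h2 : v * (u * D v) = D v := by
      rw [← mul_assoc, mul_comm v u, huv, one_mul]
    linear_combination v * h1 - h2
  have hDg : D g = C (μ : ℚ) * X ^ μ * u + X ^ μ * D u := by
    rw [hg, Derivation.leibniz, D_X_pow, smul_eq_mul, smul_eq_mul]
    ring
  have hDfv : D (f * v) = D f * v + f * D v := by
    rw [Derivation.leibniz, smul_eq_mul, smul_eq_mul]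
    ring
  have h2 : (D f * u - C (μ : ℚ) * f * u - f * D u) = C c * X ^ μ * u ^ 2 := by
    apply mul_left_cancel₀ hX
    rw [hDg, hg] at h
    linear_combination h
  have huv2 : u ^ 2 * v ^ 2 = 1 := by rw [← mul_pow, huv, one_pow]
  rw [hDfv, hDv]
  have h3 : u * v ^ 2 = v := by rw [pow_two, ← mul_assoc, huv, one_mul]
  linear_combination v ^ 2 * h2 - (D f - C (μ : ℚ) * f) * h3 + C c * X ^ μ * huv2

theorem no_log' {f g : ℚ⟦X⟧} (hg : g ≠ 0) {c : ℚ} (h : D f * g - f * D g = C c * g ^ 2) :
    c = 0 := by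
  obtain ⟨μ, u, v, hgu, huv⟩ := exists_unit_part hg
  have h1 := congrArg (coeff μ) (quot_eq hgu huv h)
  rw [map_sub, coeff_D, PowerSeries.coeff_C_mul, PowerSeries.coeff_C_mul,
    PowerSeries.coeff_X_pow_self] at h1
  linarith

theorem prop_series {f g : ℚ⟦X⟧} (hg : g ≠ 0) (h : D f * g = f * D g) :
    ∃ x : ℚ, f = C x * g := by
  obtain ⟨μ, u, v, hgu, huv⟩ := exists_unit_part hg
  have h1 : D (f * v) - C (μ : ℚ) * (f * v) = C 0 * X ^ μ :=
    quot_eq hgu huv (by rw [h]; simp)
  have h2 : f * v = C (coeff μ (f * v)) * X ^ μ := by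
    ext n
    have h3 := congrArg (coeff n) h1
    rw [map_sub, coeff_D, PowerSeries.coeff_C_mul, map_zero, zero_mul, map_zero] at h3
    rw [PowerSeries.coeff_C_mul, PowerSeries.coeff_X_pow]
    split_ifs with hn
    · rw [hn, mul_one]
    · rw [mul_zero]
      have h4 : ((n : ℚ) - μ) * coeff n (f * v) = 0 := by linear_combination h3
      rcases mul_eq_zero.1 h4 with h5 | h5
      · exact absurd (by exact_mod_cast sub_eq_zero.1 h5) hn
      · exact h5
  refine ⟨coeff μ (f * v), ?_⟩
  calc f = (f * v) * u := by rw [mul_assoc, mul_comm v u, huv, mul_one]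
    _ = C (coeff μ (f * v)) * X ^ μ * u := by rw [← h2]
    _ = C (coeff μ (f * v)) * g := by rw [hgu]; ring

theorem coeff_mul_next {R : Type*} [CommRing R] {p q : Polynomial R} {m n : ℕ}
    (hp : p.natDegree ≤ m + 1) (hq : q.natDegree ≤ n + 1) :
    (p * q).coeff (m + n + 1) = p.coeff (m + 1) * q.coeff n + p.coeff m * q.coeff (n + 1) := by
  rw [Polynomial.coeff_mul]
  rw [Finset.sum_eq_add (m + 1, n) (m, n + 1)]
  · intro h
    have := congrArg Prod.fst h
    simp at this
  · rintro ⟨i, j⟩ hij ⟨h1, h2⟩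
    rw [Finset.HasAntidiagonal.mem_antidiagonal] at hij
    dsimp only at hij ⊢
    rcases lt_trichotomy i m with h | h | h
    · rw [Polynomial.coeff_eq_zero_of_natDegree_lt (p := q) (by omega), mul_zero]
    · exfalso; apply h2; rw [Prod.mk.injEq]; omega
    · by_cases h3 : i = m + 1
      · exfalso; apply h1; rw [Prod.mk.injEq]; omega
      · rw [Polynomial.coeff_eq_zero_of_natDegree_lt (p := p) (by omega), zero_mul]
  · intro h
    exfalso; apply h; rw [Finset.HasAntidiagonal.mem_antidiagonal]; show m + 1 + n = _; omega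
  · intro h
    exfalso; apply h; rw [Finset.HasAntidiagonal.mem_antidiagonal]; show m + (n + 1) = _; omega

theorem natDegree_DL_le (P : Polynomial ℚ⟦X⟧) : (DL P).natDegree ≤ P.natDegree := by
  rw [Polynomial.natDegree_le_iff_coeff_eq_zero]
  intro n hn
  rw [coeff_DL, Polynomial.coeff_eq_zero_of_natDegree_lt hn,
    Polynomial.coeff_eq_zero_of_natDegree_lt (by omega : P.natDegree < n + 1)]
  simp

theorem lead_prop {a b : Polynomial ℚ⟦X⟧} (hb : b ≠ 0) (h : a * DL b = b * DL a) :
    ∃ x : ℚ, a.coeff a.natDegree = C x * b.coeff b.natDegree := by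
  apply prop_series (by rw [Polynomial.coeff_natDegree]; exact Polynomial.leadingCoeff_ne_zero.2 hb)
  have h1 : (a * DL b).coeff (a.natDegree + b.natDegree) = (b * DL a).coeff (a.natDegree + b.natDegree) := by
    rw [h]
  rw [Polynomial.coeff_mul_add_eq_of_natDegree_le le_rfl (natDegree_DL_le b),
    add_comm a.natDegree, Polynomial.coeff_mul_add_eq_of_natDegree_le le_rfl (natDegree_DL_le a),
    coeff_DL, coeff_DL, Polynomial.coeff_eq_zero_of_natDegree_lt (Nat.lt_succ_self a.natDegree),
    Polynomial.coeff_eq_zero_of_natDegree_lt (Nat.lt_succ_self b.natDegree)] at h1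
  linear_combination -h1

theorem degree_eq {a b : Polynomial ℚ⟦X⟧} (ha : a ≠ 0) (hb : b ≠ 0) (h : a * DL b = b * DL a) :
    a.natDegree = b.natDegree := by
  obtain ⟨x, hx⟩ := lead_prop hb h
  have hb0 : b.coeff b.natDegree ≠ 0 := by
    rw [Polynomial.coeff_natDegree]; exact Polynomial.leadingCoeff_ne_zero.2 hb
  have hx0 : x ≠ 0 := by
    rintro rfl
    rw [map_zero, zero_mul, Polynomial.coeff_natDegree] at hx
    exact Polynomial.leadingCoeff_ne_zero.2 ha hx
  set α := a.natDegree with hα
  set β := b.natDegree with hβ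
  -- multiply by `L`
  have hX : (Polynomial.X : Polynomial ℚ⟦X⟧) ≠ 0 := Polynomial.X_ne_zero
  have hda : (a * Polynomial.X).natDegree = α + 1 := by
    rw [Polynomial.natDegree_mul ha hX, Polynomial.natDegree_X]
  have hdb : (b * Polynomial.X).natDegree = β + 1 := by
    rw [Polynomial.natDegree_mul hb hX, Polynomial.natDegree_X]
  have h' : (a * Polynomial.X) * DL (b * Polynomial.X) = (b * Polynomial.X) * DL (a * Polynomial.X) := by
    rw [Derivation.leibniz, Derivation.leibniz, DL_X]
    simp only [smul_eq_mul]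
    linear_combination Polynomial.X ^ 2 * h
  have h1 : ((a * Polynomial.X) * DL (b * Polynomial.X)).coeff (α + β + 1) =
      ((b * Polynomial.X) * DL (a * Polynomial.X)).coeff (α + β + 1) := by rw [h']
  rw [coeff_mul_next hda.le ((natDegree_DL_le _).trans hdb.le), add_comm α β,
    coeff_mul_next hdb.le ((natDegree_DL_le _).trans hda.le)] at h1
  simp only [coeff_DL] at h1
  rw [Polynomial.coeff_mul_X, Polynomial.coeff_mul_X] at h1
  rw [Polynomial.coeff_eq_zero_of_natDegree_lt (p := b * Polynomial.X) (n := β + 1 + 1) (by omega),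
    Polynomial.coeff_eq_zero_of_natDegree_lt (p := a * Polynomial.X) (n := α + 1 + 1) (by omega),
    hx] at h1
  have hDx : D (C x * b.coeff β) = C x * D (b.coeff β) := by
    rw [← PowerSeries.smul_eq_C_mul, ← PowerSeries.smul_eq_C_mul, Derivation.map_smul]
  rw [hDx] at h1
  set s := (a * Polynomial.X).coeff α with hs
  set t := (b * Polynomial.X).coeff β with ht
  have hDs : D (C x * t - s) = C x * D t - D s := by
    rw [map_sub, ← PowerSeries.smul_eq_C_mul, ← PowerSeries.smul_eq_C_mul, Derivation.map_smul]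
  have h2 : D (C x * t - s) * b.coeff β - (C x * t - s) * D (b.coeff β) =
      C (((α : ℚ) - β) * x) * (b.coeff β) ^ 2 := by
    rw [hDs, map_mul, map_sub]
    have e1 : (C (α : ℚ) : ℚ⟦X⟧) = (α : ℚ⟦X⟧) := by simp
    have e2 : (C (β : ℚ) : ℚ⟦X⟧) = (β : ℚ⟦X⟧) := by simp
    rw [e1, e2]
    linear_combination h1
  have h3 := no_log' hb0 h2
  rcases mul_eq_zero.1 h3 with h4 | h4
  · exact_mod_cast sub_eq_zero.1 h4
  · exact absurd h4 hx0

theorem prop_DL {a b : Polynomial ℚ⟦X⟧} (hb : b ≠ 0) (h : a * DL b = b * DL a) :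
    ∃ x : ℚ, a = x • b := by
  by_cases ha : a = 0
  · exact ⟨0, by rw [ha, zero_smul]⟩
  obtain ⟨x, hx⟩ := lead_prop hb h
  refine ⟨x, ?_⟩
  by_contra hne
  have hc : a - x • b ≠ 0 := sub_ne_zero.2 hne
  have h2 : (a - x • b) * DL b = b * DL (a - x • b) := by
    rw [map_sub, Derivation.map_smul, sub_mul, mul_sub, smul_mul_assoc, mul_smul_comm, h]
  have h3 := degree_eq hc hb h2
  have h4 := degree_eq ha hb h
  have h5 : (a - x • b).coeff b.natDegree = 0 := by
    rw [Polynomial.coeff_sub, Polynomial.coeff_smul, PowerSeries.smul_eq_C_mul, ← hx, h4, sub_self]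
  rw [← h3, Polynomial.coeff_natDegree] at h5
  exact hc (Polynomial.leadingCoeff_eq_zero.1 h5)

/-- If the Wronskian matrix of `f` w.r.t. the derivation `δ` is singular then the family is
linearly dependent over `ℚ`, provided elements with proportional logarithmic derivatives
are proportional over `ℚ`. -/
theorem wronskian_depQ {R : Type*} [CommRing R] [IsDomain R] [Algebra ℚ R] (δ : Derivation ℚ R R)
    (hprop : ∀ a b : R, b ≠ 0 → a * δ b = b * δ a → ∃ x : ℚ, a = x • b) :
    ∀ (r : ℕ) (f : Fin r → R),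
      (Matrix.of fun b l : Fin r => (δ^[(l : ℕ)]) (f b)).det = 0 →
      ∃ c : Fin r → ℚ, c ≠ 0 ∧ ∑ b, c b • f b = 0 := by
  intro r
  induction r with
  | zero => intro f h; simp at h
  | succ r ih =>
    intro f h
    by_cases hW : (Matrix.of fun b l : Fin r => (δ^[(l : ℕ)]) (f b.succ)).det = 0
    · obtain ⟨c, hc, hs⟩ := ih (fun b => f b.succ) hW
      refine ⟨Fin.cons 0 c, ?_, ?_⟩
      · intro h0
        apply hc
        funext b
        have := congrFun h0 b.succ
        simpa using this
      · rw [Fin.sum_univ_succ]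
        simp [hs]
    · obtain ⟨a, ha, hM⟩ := Matrix.exists_vecMul_eq_zero_iff.2 h
      have hrel : ∀ l : ℕ, l < r + 1 → ∑ b, a b * (δ^[l]) (f b) = 0 := by
        intro l hl
        have := congrFun hM ⟨l, hl⟩
        simpa [Matrix.vecMul, dotProduct] using this
      have hker : ∀ u : Fin r → R, (∀ l : ℕ, l < r → ∑ b, u b * (δ^[l]) (f b.succ) = 0) → u = 0 := by
        intro u hu
        by_contra hne
        apply hW
        refine Matrix.exists_vecMul_eq_zero_iff.1 ⟨u, hne, ?_⟩
        funext l
        simpa [Matrix.vecMul, dotProduct] using hu l l.2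
      have ha0 : a 0 ≠ 0 := by
        intro h0
        have h1 : (fun b : Fin r => a b.succ) = 0 := by
          apply hker
          intro l hl
          have := hrel l (by omega)
          rw [Fin.sum_univ_succ, h0] at this
          simpa using this
        apply ha
        funext b
        refine Fin.cases h0 (fun b => ?_) b
        exact congrFun h1 b
      -- differentiate the relations
      have hrel' : ∀ l : ℕ, l < r → ∑ b, δ (a b) * (δ^[l]) (f b) = 0 := by
        intro l hl
        have h1 := hrel l (by omega)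
        have h2 := hrel (l + 1) (by omega)
        have h3 := congrArg δ h1
        rw [map_sum, map_zero] at h3
        simp only [Derivation.leibniz, smul_eq_mul] at h3
        rw [Finset.sum_add_distrib] at h3
        simp only [Function.iterate_succ_apply'] at h2
        rw [h2, zero_add] at h3
        rw [← h3]
        exact Finset.sum_congr rfl fun b _ => mul_comm _ _
      have hu : (fun b : Fin r => a 0 * δ (a b.succ) - a b.succ * δ (a 0)) = 0 := by
        apply hker
        intro l hl
        have h1 := hrel l (by omega)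
        have h2 := hrel' l hl
        rw [Fin.sum_univ_succ] at h1 h2
        have e : ∑ b : Fin r, (a 0 * δ (a b.succ) - a b.succ * δ (a 0)) * (δ^[l]) (f b.succ)
            = a 0 * ∑ b : Fin r, δ (a b.succ) * (δ^[l]) (f b.succ)
              - δ (a 0) * ∑ b : Fin r, a b.succ * (δ^[l]) (f b.succ) := by
          rw [Finset.mul_sum, Finset.mul_sum, ← Finset.sum_sub_distrib]
          exact Finset.sum_congr rfl fun b _ => by ring
        rw [e]
        have e1 : ∑ b : Fin r, δ (a b.succ) * (δ^[l]) (f b.succ) = - (δ (a 0) * (δ^[l]) (f 0)) := by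
          linear_combination h2
        have e2 : ∑ b : Fin r, a b.succ * (δ^[l]) (f b.succ) = - (a 0 * (δ^[l]) (f 0)) := by
          linear_combination h1
        rw [e1, e2]
        ring
      have hx' : ∀ b : Fin r, ∃ x : ℚ, a b.succ = x • a 0 := by
        intro b
        apply hprop _ _ ha0
        have := congrFun hu b
        simp only [Pi.zero_apply] at this
        linear_combination -this
      choose x hx' using hx'
      refine ⟨Fin.cons 1 x, ?_, ?_⟩
      · intro h0
        have := congrFun h0 0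
        simp at this
      · apply mul_left_cancel₀ ha0
        rw [mul_zero, Fin.sum_univ_succ]
        simp only [Fin.cons_zero, Fin.cons_succ, one_smul]
        have h1 := hrel 0 (by omega)
        simp only [Function.iterate_zero, id_eq] at h1
        rw [Fin.sum_univ_succ] at h1
        rw [mul_add, Finset.mul_sum, ← h1]
        congr 1
        refine Finset.sum_congr rfl fun b _ => ?_
        rw [hx' b, mul_smul_comm, smul_mul_assoc]

theorem SA_ne_zero : S * A⁻¹ ^ 2 ≠ 0 := by
  intro h
  have h1 : constantCoeff (S * A⁻¹ ^ 2) = 0 := by rw [h, map_zero]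
  have hphi : constantCoeff phi = 1 := by
    rw [← PowerSeries.coeff_zero_eq_constantCoeff_apply, phi, PowerSeries.coeff_mk, if_pos rfl]
  have hphim : constantCoeff phim = 1 := by
    rw [← PowerSeries.coeff_zero_eq_constantCoeff_apply, phim, PowerSeries.coeff_mk,
      PowerSeries.coeff_zero_eq_constantCoeff_apply, hphi]
    norm_num
  have hA : constantCoeff A = 1 := by rw [A, map_mul, hphi, hphim, one_mul]
  have hB : constantCoeff B = 1 := by
    rw [B, map_mul, map_add, map_pow, map_pow, hphi, hphim, PowerSeries.constantCoeff_C]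
    norm_num
  rw [map_mul, map_pow, PowerSeries.constantCoeff_inv, S, map_mul, map_pow,
    PowerSeries.constantCoeff_inv, hA, hB] at h1
  norm_num at h1

theorem wronL' {r : ℕ} (f : Fin r → Polynomial ℚ⟦X⟧)
    (h : (Matrix.of fun b l : Fin r => (thL^[(l : ℕ)]) (f b)).det = 0) :
    ∃ c : Fin r → ℚ, c ≠ 0 ∧ ∑ b, c b • f b = 0 := by
  apply wronskian_depQ thL _ r f h
  intro a b hb hab
  apply prop_DL hb
  have e : ∀ P, thL P = Polynomial.C (S * A⁻¹ ^ 2) * DL P := fun P => rfl
  rw [e, e] at hab
  have hC : (Polynomial.C (S * A⁻¹ ^ 2) : Polynomial ℚ⟦X⟧) ≠ 0 :=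
    Polynomial.C_ne_zero.2 SA_ne_zero
  apply mul_left_cancel₀ hC
  linear_combination hab

end

end Run7.h423
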